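import Mathlib

/-!
# The random self-avoiding walk along a pattern

`N b v` is a set of `b`-neighbours of `v`. `Ex N P n j v U φ` is the expected value of `φ` at the
final vertex set of the random walk with `n` steps which starts at `v`, uses the letters `P j`,
`P (j + 1)`, ... and always chooses its next vertex uniformly among the neighbours outside the set
`U` of used vertices.
-/

set_option autoImplicit false

namespace Pool.Agent.Helper20.Rnd

open Finset

variable {V : Type} [DecidableEq V] (N : Bool → V → Finset V) (P : ℕ → Bool)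

noncomputable def Ex : ℕ → ℕ → V → Finset V → (Finset V → ℝ) → ℝ
  | 0, _, _, U, φ => φ U
  | n + 1, j, v, U, φ =>
      (∑ v' ∈ N (P j) v \ U, Ex n (j + 1) v' (insert v' U) φ) / ((N (P j) v \ U).card : ℝ)

variable {N P}

theorem Ex_mono {φ ψ : Finset V → ℝ} : ∀ (n j : ℕ) (v : V) (U : Finset V),
    (∀ W, W.card = U.card + n → φ W ≤ ψ W) → Ex N P n j v U φ ≤ Ex N P n j v U ψ := by
  intro n
  induction n with
  | zero => intro j v U h; exact h U rfl
  | succ n ih =>
    intro j v U h
    unfold Ex
    apply div_le_div_of_nonneg_right _ (Nat.cast_nonneg _)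
    apply Finset.sum_le_sum
    intro v' hv'
    apply ih
    intro W hW
    apply h
    rw [hW, Finset.card_insert_of_notMem (Finset.mem_sdiff.1 hv').2]
    ring

theorem Ex_add {φ ψ : Finset V → ℝ} : ∀ (n j : ℕ) (v : V) (U : Finset V),
    Ex N P n j v U (fun W => φ W + ψ W) = Ex N P n j v U φ + Ex N P n j v U ψ := by
  intro n
  induction n with
  | zero => intro j v U; rfl
  | succ n ih =>
    intro j v U
    unfold Ex
    rw [← add_div, ← Finset.sum_add_distrib]
    congr 1
    exact Finset.sum_congr rfl fun v' _ => ih _ _ _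

theorem Ex_smul {φ : Finset V → ℝ} (c : ℝ) : ∀ (n j : ℕ) (v : V) (U : Finset V),
    Ex N P n j v U (fun W => c * φ W) = c * Ex N P n j v U φ := by
  intro n
  induction n with
  | zero => intro j v U; rfl
  | succ n ih =>
    intro j v U
    unfold Ex
    rw [← mul_div_assoc, Finset.mul_sum]
    congr 1
    exact Finset.sum_congr rfl fun v' _ => ih _ _ _

theorem Ex_zero (n j : ℕ) (v : V) (U : Finset V) : Ex N P n j v U (fun _ => 0) = 0 := by
  have := Ex_smul (N := N) (P := P) (φ := fun _ => 0) 0 n j v U
  simpa using this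

theorem Ex_sum {ι : Type*} (s : Finset ι) (φ : ι → Finset V → ℝ) (n j : ℕ) (v : V)
    (U : Finset V) :
    Ex N P n j v U (fun W => ∑ i ∈ s, φ i W) = ∑ i ∈ s, Ex N P n j v U (φ i) := by
  classical
  induction s using Finset.induction_on with
  | empty => simp [Ex_zero]
  | insert a s ha ih =>
    have : (fun W => ∑ i ∈ insert a s, φ i W) = fun W => φ a W + ∑ i ∈ s, φ i W := by
      funext W; rw [Finset.sum_insert ha]
    rw [this, Ex_add, ih, Finset.sum_insert ha]

theorem Ex_one {d : ℕ} (hN : ∀ b v, (N b v).card = d) : ∀ (n j : ℕ) (v : V) (U : Finset V),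
    U.card + n ≤ d → Ex N P n j v U (fun _ => 1) = 1 := by
  intro n
  induction n with
  | zero => intro j v U _; rfl
  | succ n ih =>
    intro j v U h
    unfold Ex
    have h1 : ∀ v' ∈ N (P j) v \ U, Ex N P n (j + 1) v' (insert v' U) (fun _ => 1) = 1 := by
      intro v' hv'
      apply ih
      rw [Finset.card_insert_of_notMem (Finset.mem_sdiff.1 hv').2]
      omega
    rw [Finset.sum_congr rfl h1, Finset.sum_const, nsmul_eq_mul, mul_one]
    apply div_self
    have h2 := Finset.le_card_sdiff U (N (P j) v)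
    rw [hN] at h2
    have h3 : 0 < (N (P j) v \ U).card := by omega
    exact_mod_cast h3.ne'

/-- `g` is a walk with `n` steps, new vertices outside `U` -/
def Pth (N : Bool → V → Finset V) (P : ℕ → Bool) (n j : ℕ) (v : V) (U : Finset V)
    (g : ℕ → V) : Prop :=
  g 0 = v ∧ (∀ a < n, g (a + 1) ∈ N (P (j + a)) (g a)) ∧ (∀ a, 1 ≤ a → a ≤ n → g a ∉ U) ∧
    ∀ a b, 1 ≤ a → a ≤ n → 1 ≤ b → b ≤ n → g a = g b → a = b

theorem Pth_cons {n j : ℕ} {v v' : V} {U : Finset V} {g : ℕ → V} (h1 : v' ∈ N (P j) v \ U)
    (h : Pth N P n (j + 1) v' (insert v' U) g) :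
    Pth N P (n + 1) j v U (fun a => if a = 0 then v else g (a - 1)) := by
  obtain ⟨h0, h2, h3, h4⟩ := h
  rw [Finset.mem_sdiff] at h1
  refine ⟨by simp, ?_, ?_, ?_⟩
  · intro a ha
    rcases Nat.eq_zero_or_pos a with h | h
    · subst h
      simp only [Nat.zero_add, Nat.add_zero, if_pos, Nat.sub_self, h0]
      simpa using h1.1
    · have e1 : (a + 1 = 0) = False := by simp
      have e2 : (a = 0) = False := by simp; omega
      simp only [e1, e2, if_false, Nat.add_sub_cancel]
      have := h2 (a - 1) (by omega)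
      rw [show a - 1 + 1 = a by omega, show j + 1 + (a - 1) = j + a by omega] at this
      exact this
  · intro a ha1 ha2
    have e2 : (a = 0) = False := by simp; omega
    simp only [e2, if_false]
    rcases Nat.eq_or_lt_of_le ha1 with h | h
    · subst h
      simp only [Nat.sub_self, h0]
      exact h1.2
    · exact fun hm => h3 (a - 1) (by omega) (by omega) (Finset.mem_insert_of_mem hm)
  · intro a b ha1 ha2 hb1 hb2 hab
    have e2 : (a = 0) = False := by simp; omega
    have e3 : (b = 0) = False := by simp; omega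
    simp only [e2, e3, if_false] at hab
    rcases Nat.eq_or_lt_of_le ha1 with h | h <;> rcases Nat.eq_or_lt_of_le hb1 with h' | h'
    · omega
    · exfalso
      subst h
      simp only [Nat.sub_self, h0] at hab
      exact h3 (b - 1) (by omega) (by omega) (by rw [← hab]; exact Finset.mem_insert_self _ _)
    · exfalso
      subst h'
      simp only [Nat.sub_self, h0] at hab
      exact h3 (a - 1) (by omega) (by omega) (by rw [hab]; exact Finset.mem_insert_self _ _)
    · have := h4 (a - 1) (b - 1) (by omega) (by omega) (by omega) (by omega) hab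
      omega

theorem image_cons {n : ℕ} {v v' : V} {U : Finset V} {g : ℕ → V} (h0 : g 0 = v') :
    U ∪ (Finset.Icc 1 (n + 1)).image (fun a => if a = 0 then v else g (a - 1))
      = insert v' U ∪ (Finset.Icc 1 n).image g := by
  ext y
  simp only [Finset.mem_union, Finset.mem_image, Finset.mem_Icc, Finset.mem_insert]
  constructor
  · rintro (h | ⟨a, ⟨ha1, ha2⟩, rfl⟩)
    · exact Or.inl (Or.inr h)
    · have e2 : (a = 0) = False := by simp; omega
      simp only [e2, if_false]
      rcases Nat.eq_or_lt_of_le ha1 with h | h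
      · subst h
        exact Or.inl (Or.inl h0)
      · exact Or.inr ⟨a - 1, ⟨by omega, by omega⟩, rfl⟩
  · rintro ((h | h) | ⟨a, ⟨ha1, ha2⟩, rfl⟩)
    · exact Or.inr ⟨1, ⟨le_rfl, by omega⟩, by simp [h0, h]⟩
    · exact Or.inl h
    · exact Or.inr ⟨a + 1, ⟨by omega, by omega⟩, by simp⟩

theorem Ex_exists {φ : Finset V → ℝ} : ∀ (n j : ℕ) (v : V) (U : Finset V),
    0 < Ex N P n j v U φ → ∃ g, Pth N P n j v U g ∧ 0 < φ (U ∪ (Finset.Icc 1 n).image g) := by
  intro n
  induction n with
  | zero =>
    intro j v U h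
    refine ⟨fun _ => v, ⟨rfl, fun a ha => absurd ha (by omega), fun a h1 h2 => by omega,
      fun a b h1 h2 => by omega⟩, ?_⟩
    unfold Ex at h
    simpa using h
  | succ n ih =>
    intro j v U h
    unfold Ex at h
    have h1 : 0 < ∑ v' ∈ N (P j) v \ U, Ex N P n (j + 1) v' (insert v' U) φ := by
      by_contra hcon
      have := div_nonpos_of_nonpos_of_nonneg (not_lt.1 hcon)
        (Nat.cast_nonneg (α := ℝ) (N (P j) v \ U).card)
      linarith
    obtain ⟨v', hv', h2⟩ : ∃ v' ∈ N (P j) v \ U, 0 < Ex N P n (j + 1) v' (insert v' U) φ := by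
      by_contra hcon
      push Not at hcon
      have := Finset.sum_nonpos hcon
      linarith
    obtain ⟨g, hg, hφ⟩ := ih _ _ _ h2
    refine ⟨_, Pth_cons hv' hg, ?_⟩
    rw [image_cons hg.1]
    exact hφ

variable (N P) in
/-- the number of walks with `i` steps whose new vertices are outside `B` -/
noncomputable def M : ℕ → ℕ → V → Finset V → ℝ
  | 0, _, _, _ => 1
  | i + 1, j, w, B => ∑ v ∈ N (P j) w \ B, M i (j + 1) v (insert v B)

theorem M_exists : ∀ (i j : ℕ) (w : V) (B : Finset V), 0 < M N P i j w B →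
    ∃ g, Pth N P i j w B g := by
  intro i
  induction i with
  | zero =>
    intro j w B _
    exact ⟨fun _ => w, ⟨rfl, fun a ha => absurd ha (by omega), fun a h1 h2 => by omega,
      fun a b h1 h2 => by omega⟩⟩
  | succ i ih =>
    intro j w B h
    unfold M at h
    obtain ⟨v', hv', h2⟩ : ∃ v' ∈ N (P j) w \ B, 0 < M N P i (j + 1) v' (insert v' B) := by
      by_contra hcon
      push Not at hcon
      have := Finset.sum_nonpos hcon
      linarith
    obtain ⟨g, hg⟩ := ih _ _ _ h2
    exact ⟨_, Pth_cons hv' hg⟩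

end Pool.Agent.Helper20.Rnd
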