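import Pool.Agent.Helper20.Rnd.Pot
import Pool.Agent.Helper20.Turn.Main

/-!
# Every oriented path in an oriented graph of minimum semidegree at least `49 k / 50 + 1`
-/

set_option autoImplicit false

namespace Pool.Agent.Helper20.Rnd

open Finset

section lphase

variable {V : Type} [DecidableEq V] {N : Bool → V → Finset V} {P Q : ℕ → Bool}

theorem M_nonneg : ∀ (i j : ℕ) (w : V) (B : Finset V), 0 ≤ M N Q i j w B := by
  intro i
  induction i with
  | zero => intro j w B; unfold M; norm_num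
  | succ i ih =>
    intro j w B
    unfold M
    exact Finset.sum_nonneg fun v _ => ih _ _ _

/-- The first moment of the number of left walks which avoid the right walk. -/
theorem lphase {d x t s n j0 : ℕ} {x0 : V} (hN : ∀ b v, (N b v).card = d) (hsd : s ≤ d)
    (hn : 1 + n = d) (hst : s + t ≤ x + 2) {ε : ℝ} (hε0 : 0 ≤ ε)
    (hε : ∀ b w, Ex N P n j0 x0 {x0} (ind (N b w) x) ≤ ε) :
    ∀ (i j : ℕ) (w : V) (A : Finset V) (φ : Finset V → ℝ), (∀ W, 0 ≤ φ W) → (∀ W, φ W ≤ 1) →
      A.card + i ≤ t →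
      (s : ℝ) ^ i * Ex N P n j0 x0 {x0} φ - i * (d : ℝ) ^ i * ε ≤
        Ex N P n j0 x0 {x0} (fun U => φ U * M N Q i j w (U ∪ A)) := by
  intro i
  induction i with
  | zero =>
    intro j w A φ _ _ _
    simp [M]
  | succ i ih =>
    intro j w A φ h0 h1 hA
    have key : (fun U => φ U * M N Q (i + 1) j w (U ∪ A)) = fun U =>
        ∑ v ∈ N (Q j) w \ A, (φ U * (if v ∈ U then 0 else 1)) *
          M N Q i (j + 1) v (U ∪ insert v A) := by
      funext U
      show φ U * (∑ v ∈ N (Q j) w \ (U ∪ A), M N Q i (j + 1) v (insert v (U ∪ A))) = _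
      have e1 : N (Q j) w \ (U ∪ A) = (N (Q j) w \ A).filter (fun v => v ∉ U) := by
        ext y
        simp only [Finset.mem_sdiff, Finset.mem_union, Finset.mem_filter, not_or]
        tauto
      rw [e1, Finset.mul_sum, Finset.sum_filter]
      refine Finset.sum_congr rfl fun v _ => ?_
      by_cases hv : v ∈ U
      · simp [hv]
      · rw [if_pos hv, if_neg hv, mul_one, Finset.union_insert]
    rw [key, Ex_sum]
    have hstep : ∀ v ∈ N (Q j) w \ A,
        (s : ℝ) ^ i * Ex N P n j0 x0 {x0} (fun U => φ U * (if v ∈ U then 0 else 1))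
          - i * (d : ℝ) ^ i * ε ≤
        Ex N P n j0 x0 {x0} (fun U => (φ U * (if v ∈ U then 0 else 1)) *
          M N Q i (j + 1) v (U ∪ insert v A)) := by
      intro v hv
      apply ih
      · intro W; exact mul_nonneg (h0 W) (by split_ifs <;> norm_num)
      · intro W
        split_ifs
        · simp
        · rw [mul_one]; exact h1 W
      · rw [Finset.card_insert_of_notMem (Finset.mem_sdiff.1 hv).2]
        omega
    refine le_trans ?_ (Finset.sum_le_sum hstep)
    rw [Finset.sum_sub_distrib, ← Finset.mul_sum, ← Ex_sum, Finset.sum_const, nsmul_eq_mul]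
    have hmain : (s : ℝ) * (Ex N P n j0 x0 {x0} φ - ε) ≤ Ex N P n j0 x0 {x0}
        (fun U => ∑ v ∈ N (Q j) w \ A, φ U * (if v ∈ U then 0 else 1)) := by
      have hle : Ex N P n j0 x0 {x0} (fun U => (s : ℝ) * (φ U + (-1) * ind (N (Q j) w) x U)) ≤
          Ex N P n j0 x0 {x0} (fun U => ∑ v ∈ N (Q j) w \ A, φ U * (if v ∈ U then 0 else 1)) := by
        apply Ex_mono
        intro W hW
        rw [Finset.card_singleton, hn] at hW
        have e1 : ∑ v ∈ N (Q j) w \ A, φ W * (if v ∈ W then 0 else 1)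
            = φ W * (((N (Q j) w \ A) \ W).card : ℝ) := by
          rw [← Finset.mul_sum]
          congr 1
          rw [Finset.sdiff_eq_filter (N (Q j) w \ A) W, Finset.card_filter]
          push_cast
          refine Finset.sum_congr rfl fun v _ => ?_
          by_cases hv : v ∈ W <;> simp [hv]
        rw [e1]
        unfold ind
        split_ifs with hx
        · have h2 : φ W + (-1) * 1 ≤ 0 := by linarith [h1 W]
          have h3 : (s : ℝ) * (φ W + (-1) * 1) ≤ 0 :=
            mul_nonpos_of_nonneg_of_nonpos (Nat.cast_nonneg _) h2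
          have h4 : 0 ≤ φ W * (((N (Q j) w \ A) \ W).card : ℝ) :=
            mul_nonneg (h0 W) (Nat.cast_nonneg _)
          linarith
        · have e2 : ((N (Q j) w) \ W).card = (W \ N (Q j) w).card := by
            have a1 := Finset.card_sdiff_add_card_inter (N (Q j) w) W
            have a2 := Finset.card_sdiff_add_card_inter W (N (Q j) w)
            rw [Finset.inter_comm] at a2
            rw [hN] at a1
            omega
          have e3 : (N (Q j) w \ W).card ≤ ((N (Q j) w \ A) \ W).card + A.card := by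
            have hs : N (Q j) w \ W ⊆ ((N (Q j) w \ A) \ W) ∪ A := by
              intro y hy
              rw [Finset.mem_sdiff] at hy
              rw [Finset.mem_union, Finset.mem_sdiff, Finset.mem_sdiff]
              by_cases hyA : y ∈ A
              · exact Or.inr hyA
              · exact Or.inl ⟨⟨hy.1, hyA⟩, hy.2⟩
            exact (Finset.card_le_card hs).trans (Finset.card_union_le _ _)
          have e4 : s ≤ ((N (Q j) w \ A) \ W).card := by omega
          have e5 : (s : ℝ) ≤ (((N (Q j) w \ A) \ W).card : ℝ) := by exact_mod_cast e4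
          have e6 := mul_le_mul_of_nonneg_right e5 (h0 W)
          linarith
      rw [Ex_smul, Ex_add, Ex_smul] at hle
      have h5 := mul_le_mul_of_nonneg_left (hε (Q j) w) (Nat.cast_nonneg (α := ℝ) s)
      linarith
    have hcard : ((N (Q j) w \ A).card : ℝ) ≤ d := by
      have : (N (Q j) w \ A).card ≤ d := by
        rw [← hN (Q j) w]; exact Finset.card_le_card Finset.sdiff_subset
      exact_mod_cast this
    have h6 : ((N (Q j) w \ A).card : ℝ) * (i * (d : ℝ) ^ i * ε) ≤ d * (i * (d : ℝ) ^ i * ε) :=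
      mul_le_mul_of_nonneg_right hcard (by positivity)
    have h7 := mul_le_mul_of_nonneg_left hmain (pow_nonneg (Nat.cast_nonneg (α := ℝ) s) i)
    have h8 : (s : ℝ) ^ (i + 1) * ε ≤ (d : ℝ) ^ (i + 1) * ε := by
      apply mul_le_mul_of_nonneg_right _ hε0
      exact pow_le_pow_left₀ (Nat.cast_nonneg _) (by exact_mod_cast hsd) _
    have e7 : (s : ℝ) ^ i * ((s : ℝ) * (Ex N P n j0 x0 {x0} φ - ε))
        = (s : ℝ) ^ (i + 1) * Ex N P n j0 x0 {x0} φ - (s : ℝ) ^ (i + 1) * ε := by ring
    have e8 : ((i + 1 : ℕ) : ℝ) * (d : ℝ) ^ (i + 1) * ε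
        = d * (i * (d : ℝ) ^ i * ε) + (d : ℝ) ^ (i + 1) * ε := by push_cast; ring
    rw [e8]
    linarith

end lphase

/-- the numerical inequality -/
theorem numeric {d t s x : ℕ} (ht : 1 ≤ t) (hd : 49 * t + 1 ≤ d) (hs : t + 2 ≤ 2 * s)
    (hx : 2 * x + 1 ≤ 3 * t) :
    (t : ℝ) * (d : ℝ) ^ t *
      Real.exp (-((1 - Real.exp (-2)) * ((d : ℝ) / 4 - x - (x + 1)) - 2 * x)) < (s : ℝ) ^ t := by
  have htR : (1 : ℝ) ≤ t := by exact_mod_cast ht
  have hdR : (49 : ℝ) * t + 1 ≤ d := by exact_mod_cast hd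
  have hsR : (t : ℝ) + 2 ≤ 2 * s := by exact_mod_cast hs
  have hxR : (2 : ℝ) * x + 1 ≤ 3 * t := by exact_mod_cast hx
  have he := Real.exp_one_gt_d9
  have he1 : (0 : ℝ) < Real.exp 1 := Real.exp_pos 1
  have e5 : (148 : ℝ) ≤ Real.exp 5 := by
    have h1 : Real.exp 5 = Real.exp 1 ^ 5 := by rw [← Real.exp_nat_mul]; norm_num
    rw [h1]
    have h2 : (2.718 : ℝ) ^ 5 ≤ Real.exp 1 ^ 5 := pow_le_pow_left₀ (by norm_num) (by linarith) 5
    have h3 : (148 : ℝ) ≤ 2.718 ^ 5 := by norm_num
    linarith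
  have e2 : Real.exp (-2) ≤ 0.1354 := by
    have h1 : Real.exp (-2) = (Real.exp 1 ^ 2)⁻¹ := by
      rw [← Real.exp_nat_mul, ← Real.exp_neg]; norm_num
    rw [h1]
    have h2 : (2.718 : ℝ) ^ 2 ≤ Real.exp 1 ^ 2 := pow_le_pow_left₀ (by norm_num) (by linarith) 2
    rw [inv_le_comm₀ (by positivity) (by norm_num)]
    have h3 : ((0.1354 : ℝ))⁻¹ ≤ 2.718 ^ 2 := by norm_num
    linarith
  have e1' : (4 : ℝ) ≤ Real.exp 2 := by
    have h1 : Real.exp 2 = Real.exp 1 ^ 2 := by rw [← Real.exp_nat_mul]; norm_num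
    rw [h1]
    nlinarith
  have hs0 : (0 : ℝ) < s := by linarith
  have hd0 : (0 : ℝ) < d := by linarith
  -- t ≤ exp (t / 4 + 1)
  have ht4 : (t : ℝ) ≤ Real.exp (t / 4 + 1) := by
    have h1 := Real.add_one_le_exp ((t : ℝ) / 4 - 1)
    have h2 : (t : ℝ) ≤ 4 * Real.exp ((t : ℝ) / 4 - 1) := by linarith
    calc (t : ℝ) ≤ 4 * Real.exp ((t : ℝ) / 4 - 1) := h2
      _ ≤ Real.exp 2 * Real.exp ((t : ℝ) / 4 - 1) :=
          mul_le_mul_of_nonneg_right e1' (Real.exp_pos _).le
      _ = Real.exp (t / 4 + 1) := by rw [← Real.exp_add]; congr 1; ring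
  -- d / s ≤ exp (y / 148 + 4)
  have hds : (d : ℝ) / s ≤ Real.exp ((d : ℝ) / s / 148 + 4) := by
    have h1 := Real.add_one_le_exp ((d : ℝ) / s / Real.exp 5 - 1)
    have hpos : (0 : ℝ) < Real.exp 5 := Real.exp_pos 5
    have h2 : (d : ℝ) / s ≤ Real.exp 5 * Real.exp ((d : ℝ) / s / Real.exp 5 - 1) := by
      have h3 : (d : ℝ) / s / Real.exp 5 ≤ Real.exp ((d : ℝ) / s / Real.exp 5 - 1) := by linarith
      calc (d : ℝ) / s = Real.exp 5 * ((d : ℝ) / s / Real.exp 5) := by field_simp
        _ ≤ _ := mul_le_mul_of_nonneg_left h3 hpos.le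
    refine h2.trans ?_
    rw [← Real.exp_add]
    apply Real.exp_le_exp.2
    have h4 : (d : ℝ) / s / Real.exp 5 ≤ (d : ℝ) / s / 148 := by
      apply div_le_div_of_nonneg_left (by positivity) (by norm_num) e5
    linarith
  have hpow : (d : ℝ) ^ t ≤ Real.exp (2 * d / 148 + 4 * t) * (s : ℝ) ^ t := by
    have h1 : (d : ℝ) ^ t = ((d : ℝ) / s) ^ t * (s : ℝ) ^ t := by
      rw [← mul_pow, div_mul_cancel₀ _ hs0.ne']
    rw [h1]
    apply mul_le_mul_of_nonneg_right _ (by positivity)
    calc ((d : ℝ) / s) ^ t ≤ (Real.exp ((d : ℝ) / s / 148 + 4)) ^ t :=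
          pow_le_pow_left₀ (by positivity) hds t
      _ = Real.exp (t * ((d : ℝ) / s / 148 + 4)) := by rw [Real.exp_nat_mul]
      _ ≤ Real.exp (2 * d / 148 + 4 * t) := by
          apply Real.exp_le_exp.2
          have h2 : (t : ℝ) * ((d : ℝ) / s) ≤ 2 * d := by
            rw [← mul_div_assoc, div_le_iff₀ hs0]
            nlinarith
          have h3 : (t : ℝ) * ((d : ℝ) / s / 148 + 4) = (t : ℝ) * ((d : ℝ) / s) / 148 + 4 * t := by
            ring
          rw [h3]
          linarith [div_le_div_of_nonneg_right h2 (show (0 : ℝ) ≤ 148 by norm_num)]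
  have hst : (0 : ℝ) < (s : ℝ) ^ t := by positivity
  have hexp3 : ∀ a b c S : ℝ, Real.exp a * (Real.exp b * S) * Real.exp c
      = Real.exp (a + b + c) * S := by
    intro a b c S
    rw [Real.exp_add, Real.exp_add]; ring
  calc (t : ℝ) * (d : ℝ) ^ t *
      Real.exp (-((1 - Real.exp (-2)) * ((d : ℝ) / 4 - x - (x + 1)) - 2 * x))
      ≤ Real.exp (t / 4 + 1) * (Real.exp (2 * d / 148 + 4 * t) * (s : ℝ) ^ t) *
        Real.exp (-((1 - Real.exp (-2)) * ((d : ℝ) / 4 - x - (x + 1)) - 2 * x)) := by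
        apply mul_le_mul_of_nonneg_right _ (Real.exp_pos _).le
        exact mul_le_mul ht4 hpow (by positivity) (Real.exp_pos _).le
    _ = Real.exp (t / 4 + 1 + (2 * d / 148 + 4 * t) +
        (-((1 - Real.exp (-2)) * ((d : ℝ) / 4 - x - (x + 1)) - 2 * x))) * (s : ℝ) ^ t :=
        hexp3 _ _ _ _
    _ < 1 * (s : ℝ) ^ t := by
        apply mul_lt_mul_of_pos_right _ hst
        rw [Real.exp_lt_one_iff]
        have h1 : (0 : ℝ) ≤ (d : ℝ) / 4 - x - (x + 1) := by linarith
        have h2 : (0.8646 : ℝ) * ((d : ℝ) / 4 - x - (x + 1)) ≤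
            (1 - Real.exp (-2)) * ((d : ℝ) / 4 - x - (x + 1)) :=
          mul_le_mul_of_nonneg_right (by linarith) h1
        linarith
    _ = _ := one_mul _

section final

variable {V : Type} [Fintype V] {R : Bool → V → V → Prop} {P : ℕ → Bool}

open Classical in
/-- **Main theorem for patterns.** -/
theorem main (hR1 : ∀ b x y, R b x y → R (!b) y x) (hR2 : ∀ b x y, R b x y → ¬ R b y x)
    (hne : Nonempty V) (d k : ℕ) (hd : ∀ b v, d ≤ (Turn.N R b v).card)
    (hk : 49 * k + 50 ≤ 50 * d) : ∃ f, Turn.Emb R P k f := by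
  classical
  rcases Nat.lt_or_ge d k with hdk | hdk
  swap
  · exact Turn.greedy hR2 hd hne k hdk
  -- subsets of the neighbourhoods with exactly d elements
  have hch : ∀ b v, ∃ S ⊆ Turn.N R b v, S.card = d := fun b v =>
    Finset.exists_subset_card_eq (hd b v)
  choose N hNsub hN using hch
  have hNR : ∀ b x y, y ∈ N b x → R b x y := fun b x y h => Turn.mem_N.1 (hNsub b x h)
  have hA : ∀ b x y, y ∈ N b x → x ∉ N b y := fun b x y h h' =>
    hR2 b x y (hNR b x y h) (hNR b y x h')
  obtain ⟨m, hm⟩ : ∃ m, k = d + m := ⟨k - d, by omega⟩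
  set t := m + 1 with ht
  set s := (t + 1) / 2 + 1 with hs
  set x := t + (t + 1) / 2 - 1 with hx
  have hm1 : 1 ≤ m := by omega
  set n := d - 1 with hn
  have hd0 : 0 < d := by omega
  obtain ⟨x0⟩ := hne
  set β : ℝ := 2 with hβ
  set ε : ℝ := Real.exp (-((1 - Real.exp (-2)) * ((d : ℝ) / 4 - x - (x + 1)) - 2 * x)) with hε
  have hprob : ∀ b w, Ex N P n t x0 {x0} (ind (N b w) x) ≤ ε := by
    intro b w
    have h1 := pot (N := N) (P := P) (x := x) hd0 hN (S := N b w) (hN b w) (β := 2) (by norm_num)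
      n t x0 {x0} (Finset.mem_singleton_self _) (by rw [Finset.card_singleton]; omega)
    refine h1.trans ?_
    have h2 : ({x0} ∩ N b w : Finset V).erase x0 = ∅ := by
      ext y
      simp only [Finset.mem_erase, Finset.mem_inter, Finset.mem_singleton, Finset.notMem_empty,
        iff_false]
      rintro ⟨h, h', _⟩
      exact h h'
    rw [h2, Finset.sum_empty, mul_zero]
    have h3 : Real.exp (0 - 2 * ((({x0} : Finset V) \ N b w).card : ℝ)) ≤ 1 := by
      rw [Real.exp_le_one_iff]
      have : (0 : ℝ) ≤ ((({x0} : Finset V) \ N b w).card : ℝ) := Nat.cast_nonneg _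
      linarith
    have h4 := sum_pw (N := N) hd0 (hN b w) hA x
    have hα0 : 0 ≤ 1 - Real.exp (-2) := by
      have : Real.exp (-2) ≤ 1 := Real.exp_le_one_iff.2 (by norm_num)
      linarith
    calc _ ≤ 1 * Real.exp (-((1 - Real.exp (-2)) *
          (∑ u ∈ N b w, pw N (N b w) d x u - (x + 1)) - 2 * x)) :=
          mul_le_mul_of_nonneg_right h3 (Real.exp_pos _).le
      _ ≤ ε := by
          rw [one_mul, hε]
          apply Real.exp_le_exp.2
          have h5 : (d : ℝ) / 4 - x - (x + 1) ≤ ∑ u ∈ N b w, pw N (N b w) d x u - (x + 1) := by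
            linarith
          have h6 := mul_le_mul_of_nonneg_left h5 hα0
          linarith
  have hL := lphase (P := P) (Q := fun a => !(P (t - 1 - a))) (x := x) (t := t) (s := s) (n := n)
    (j0 := t) (x0 := x0) hN (by omega) (by omega) (by omega) (Real.exp_pos _).le hprob t 0 x0 ∅
    (fun _ => 1) (fun _ => zero_le_one) (fun _ => le_refl _) (by simp)
  rw [Ex_one hN n t x0 {x0} (by rw [Finset.card_singleton]; omega), mul_one] at hL
  have hnum := numeric (d := d) (t := t) (s := s) (x := x) (by omega) (by omega) (by omega)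
    (by omega)
  have hpos : 0 < Ex N P n t x0 {x0}
      (fun U => 1 * M N (fun a => !(P (t - 1 - a))) t 0 x0 (U ∪ ∅)) :=
    lt_of_lt_of_le (by linarith) hL
  obtain ⟨g, hg, hg2⟩ := Ex_exists n t x0 {x0} hpos
  rw [one_mul, Finset.union_empty] at hg2
  obtain ⟨h, hh⟩ := M_exists t 0 x0 _ hg2
  obtain ⟨g0, g1, g3, g4⟩ := hg
  obtain ⟨h0, h1, h3, h4⟩ := hh
  have hgU : ∀ a, a ≤ n → g a ∈ ({x0} : Finset V) ∪ (Finset.Icc 1 n).image g := by
    intro a ha
    rw [Finset.mem_union, Finset.mem_singleton, Finset.mem_image]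
    rcases Nat.eq_zero_or_pos a with h | h
    · left; rw [h, g0]
    · exact Or.inr ⟨a, Finset.mem_Icc.2 ⟨h, ha⟩, rfl⟩
  have hginj : ∀ a b, a ≤ n → b ≤ n → g a = g b → a = b := by
    intro a b ha hb hab
    rcases Nat.eq_zero_or_pos a with h | h <;> rcases Nat.eq_zero_or_pos b with h' | h'
    · omega
    · exfalso
      rw [h, g0] at hab
      exact g3 b h' hb (Finset.mem_singleton.2 hab.symm)
    · exfalso
      rw [h', g0] at hab
      exact g3 a h ha (Finset.mem_singleton.2 hab)
    · exact g4 a b h ha h' hb hab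
  refine ⟨fun p => if p < t then h (t - p) else g (p - t), ?_, ?_⟩
  · intro i hi j hj hij
    simp only at hij
    split_ifs at hij with c1 c2 c2
    · have := h4 (t - i) (t - j) (by omega) (by omega) (by omega) (by omega) hij
      omega
    · exfalso
      apply h3 (t - i) (by omega) (by omega)
      rw [hij]
      exact hgU _ (by omega)
    · exfalso
      apply h3 (t - j) (by omega) (by omega)
      rw [← hij]
      exact hgU _ (by omega)
    · have := hginj (i - t) (j - t) (by omega) (by omega) hij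
      omega
  · intro i hi
    show R (P i) (if i < t then h (t - i) else g (i - t))
      (if i + 1 < t then h (t - (i + 1)) else g (i + 1 - t))
    by_cases c1 : i < t
    · rw [if_pos c1]
      have h5 := h1 (t - 1 - i) (by omega)
      rw [show t - 1 - i + 1 = t - i by omega] at h5
      have h6 := hR1 _ _ _ (hNR _ _ _ h5)
      simp only [Nat.zero_add, show t - 1 - (t - 1 - i) = i by omega, Bool.not_not] at h6
      by_cases c2 : i + 1 < t
      · rw [if_pos c2]
        rw [show t - (i + 1) = t - 1 - i by omega]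
        exact h6
      · rw [if_neg c2, show i + 1 - t = 0 by omega, g0]
        rw [show t - 1 - i = 0 by omega, h0] at h6
        exact h6
    · rw [if_neg c1, if_neg (by omega)]
      have h5 := g1 (i - t) (by omega)
      rw [show t + (i - t) = i by omega, show i - t + 1 = i + 1 - t by omega] at h5
      exact hNR _ _ _ h5

end final

end Pool.Agent.Helper20.Rnd
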