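import Pool.Agent.Helper20.Rnd.Ex

/-!
# The supermartingale

For a fixed set `S` the random self-avoiding walk does not stay in `S`.
-/

set_option autoImplicit false

namespace Pool.Agent.Helper20.Rnd

open Finset

section tour

variable {V : Type} [DecidableEq V]

theorem tour (N : V → Finset V) (hN : ∀ x y, y ∈ N x → x ∉ N y) (E : Finset V) :
    E.card * (E.card + 1) ≤ 2 * ∑ x ∈ E, (E \ N x).card := by
  have e1 : ∀ x ∈ E, (E \ N x).card = ∑ y ∈ E, if y ∈ N x then 0 else 1 := by
    intro x _
    rw [Finset.card_eq_sum_ones, Finset.sdiff_eq_filter, Finset.sum_filter]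
    refine Finset.sum_congr rfl fun y _ => ?_
    by_cases h : y ∈ N x
    · simp [h]
    · simp [h]
  rw [Finset.sum_congr rfl e1, two_mul]
  have e2 : (∑ x ∈ E, ∑ y ∈ E, if y ∈ N x then 0 else 1)
      = ∑ x ∈ E, ∑ y ∈ E, if x ∈ N y then (0 : ℕ) else 1 := Finset.sum_comm
  calc E.card * (E.card + 1) = ∑ x ∈ E, ∑ y ∈ E, (1 + if x = y then 1 else 0) := by
        have : ∀ x ∈ E, (∑ y ∈ E, (1 + if x = y then 1 else 0)) = E.card + 1 := by
          intro x hx
          rw [Finset.sum_add_distrib, Finset.sum_ite_eq, if_pos hx]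
          simp
        rw [Finset.sum_congr rfl this]
        simp
    _ ≤ ∑ x ∈ E, ∑ y ∈ E, ((if y ∈ N x then 0 else 1) + if x ∈ N y then (0 : ℕ) else 1) := by
        refine Finset.sum_le_sum fun x _ => Finset.sum_le_sum fun y _ => ?_
        by_cases hxy : x = y
        · subst hxy
          have : x ∉ N x := fun h => hN _ _ h h
          simp [this]
        · by_cases h1 : y ∈ N x
          · simp [h1, hN _ _ h1, hxy]
          · simp [h1, hxy]
    _ = _ := by
        simp only [Finset.sum_add_distrib]
        rw [← e2]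

/-- the least number of missed vertices of `S` -/
def mu (N : Bool → V → Finset V) (S : Finset V) (u : V) : ℕ :=
  min (S \ N true u).card (S \ N false u).card

theorem mu_le (N : Bool → V → Finset V) (S : Finset V) (b : Bool) (u : V) :
    mu N S u ≤ (S \ N b u).card := by
  cases b
  · exact min_le_right _ _
  · exact min_le_left _ _

theorem sum_mu (N : Bool → V → Finset V) (hN : ∀ b x y, y ∈ N b x → x ∉ N b y) (S : Finset V) :
    S.card ^ 2 ≤ 4 * ∑ u ∈ S, mu N S u := by
  classical
  set X := S.filter (fun u => (S \ N true u).card ≤ (S \ N false u).card) with hX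
  set Y := S.filter (fun u => ¬ (S \ N true u).card ≤ (S \ N false u).card) with hY
  have h1 : ∑ u ∈ S, mu N S u = ∑ u ∈ X, mu N S u + ∑ u ∈ Y, mu N S u :=
    (Finset.sum_filter_add_sum_filter_not S _ _).symm
  have hc : X.card + Y.card = S.card := Finset.card_filter_add_card_filter_not _
  have h2 : ∑ x ∈ X, (X \ N true x).card ≤ ∑ u ∈ X, mu N S u := by
    refine Finset.sum_le_sum fun u hu => ?_
    have hu' := (Finset.mem_filter.1 hu).2
    rw [mu, min_eq_left hu']
    exact Finset.card_le_card (Finset.sdiff_subset_sdiff (Finset.filter_subset _ _) (le_refl _))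
  have h3 : ∑ x ∈ Y, (Y \ N false x).card ≤ ∑ u ∈ Y, mu N S u := by
    refine Finset.sum_le_sum fun u hu => ?_
    have hu' := (Finset.mem_filter.1 hu).2
    rw [mu, min_eq_right (le_of_lt (not_le.1 hu'))]
    exact Finset.card_le_card (Finset.sdiff_subset_sdiff (Finset.filter_subset _ _) (le_refl _))
  have h4 := tour (N true) (hN true) X
  have h5 := tour (N false) (hN false) Y
  rw [h1, ← hc]
  nlinarith [sq_nonneg ((X.card : ℤ) - Y.card), h2, h3, h4, h5]

end tour

section pot

variable {V : Type} [DecidableEq V] {N : Bool → V → Finset V} {P : ℕ → Bool}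

/-- the weight of a vertex of `S` -/
noncomputable def pw (N : Bool → V → Finset V) (S : Finset V) (d x : ℕ) (u : V) : ℝ :=
  max 0 (((mu N S u : ℝ) - x) / d)

/-- the walk is almost inside `S` -/
noncomputable def ind (S : Finset V) (x : ℕ) (U : Finset V) : ℝ :=
  if (U \ S).card ≤ x then 1 else 0

theorem ind_nonneg (S : Finset V) (x : ℕ) (U : Finset V) : 0 ≤ ind S x U := by
  unfold ind; split_ifs <;> norm_num

theorem ind_zero (S : Finset V) (x : ℕ) : ∀ (n j : ℕ) (v : V) (U : Finset V),
    x < (U \ S).card → Ex N P n j v U (ind S x) = 0 := by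
  intro n
  induction n with
  | zero =>
    intro j v U h
    unfold Ex ind
    rw [if_neg (by omega)]
  | succ n ih =>
    intro j v U h
    unfold Ex
    rw [Finset.sum_eq_zero, zero_div]
    intro v' _
    apply ih
    exact lt_of_lt_of_le h (Finset.card_le_card
      (Finset.sdiff_subset_sdiff (Finset.subset_insert _ _) (le_refl _)))

/-- the exit probability -/
theorem exit_prob {d x : ℕ} (hd : 0 < d) (hN : ∀ b v, (N b v).card = d) {S U : Finset V}
    (hS : S.card = d) (hU : (U \ S).card ≤ x) (b : Bool) (v : V) :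
    pw N S d x v * ((N b v \ U).card : ℝ) ≤ (((N b v \ U) \ S).card : ℝ) := by
  have h1 : (N b v \ S).card = (S \ N b v).card := by
    have e1 := Finset.card_sdiff_add_card_inter (N b v) S
    have e2 := Finset.card_sdiff_add_card_inter S (N b v)
    rw [Finset.inter_comm] at e2
    rw [hN] at e1
    omega
  have h2 := mu_le N S b v
  have h3 : (N b v \ S).card ≤ ((N b v \ U) \ S).card + (U \ S).card := by
    have hs : N b v \ S ⊆ ((N b v \ U) \ S) ∪ (U \ S) := by
      intro y hy
      rw [Finset.mem_sdiff] at hy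
      rw [Finset.mem_union, Finset.mem_sdiff, Finset.mem_sdiff, Finset.mem_sdiff]
      by_cases hyU : y ∈ U
      · exact Or.inr ⟨hyU, hy.2⟩
      · exact Or.inl ⟨⟨hy.1, hyU⟩, hy.2⟩
    exact (Finset.card_le_card hs).trans (Finset.card_union_le _ _)
  have h4 : ((N b v \ U).card : ℝ) ≤ d := by
    have : (N b v \ U).card ≤ d := by
      rw [← hN b v]; exact Finset.card_le_card Finset.sdiff_subset
    exact_mod_cast this
  have h5 : (mu N S v : ℝ) - x ≤ (((N b v \ U) \ S).card : ℝ) := by
    have : mu N S v ≤ ((N b v \ U) \ S).card + x := by omega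
    have : (mu N S v : ℝ) ≤ (((N b v \ U) \ S).card : ℝ) + x := by exact_mod_cast this
    linarith
  have hd' : (0 : ℝ) < d := by exact_mod_cast hd
  unfold pw
  rcases le_total 0 (((mu N S v : ℝ) - x) / d) with h | h
  · rw [max_eq_right h]
    have h6 : 0 ≤ (mu N S v : ℝ) - x := by
      have := mul_nonneg h hd'.le
      rwa [div_mul_cancel₀ _ hd'.ne'] at this
    calc ((mu N S v : ℝ) - x) / d * ((N b v \ U).card : ℝ)
        ≤ ((mu N S v : ℝ) - x) / d * d := mul_le_mul_of_nonneg_left h4 h
      _ = (mu N S v : ℝ) - x := div_mul_cancel₀ _ hd'.ne'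
      _ ≤ _ := h5
  · rw [max_eq_left h, zero_mul]
    exact Nat.cast_nonneg _

theorem pw_nonneg (S : Finset V) (d x : ℕ) (u : V) : 0 ≤ pw N S d x u := le_max_left _ _

theorem pw_le_one {S : Finset V} {d : ℕ} (hd : 0 < d) (hS : S.card = d) (x : ℕ) (u : V) :
    pw N S d x u ≤ 1 := by
  unfold pw
  have hd' : (0 : ℝ) < d := by exact_mod_cast hd
  apply max_le zero_le_one
  rw [div_le_one hd']
  have h1 : mu N S u ≤ d := by
    rw [← hS]
    exact (mu_le N S true u).trans (Finset.card_le_card Finset.sdiff_subset)
  have h2 : (mu N S u : ℝ) ≤ d := by exact_mod_cast h1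
  have h3 : (0 : ℝ) ≤ x := Nat.cast_nonneg _
  linarith

theorem sum_pw {S : Finset V} {d : ℕ} (hd : 0 < d) (hS : S.card = d)
    (hA : ∀ b x y, y ∈ N b x → x ∉ N b y) (x : ℕ) :
    (d : ℝ) / 4 - x ≤ ∑ u ∈ S, pw N S d x u := by
  have hd' : (0 : ℝ) < d := by exact_mod_cast hd
  have h1 : ∑ u ∈ S, ((mu N S u : ℝ) - x) / d ≤ ∑ u ∈ S, pw N S d x u :=
    Finset.sum_le_sum fun u _ => le_max_right _ _
  refine le_trans ?_ h1
  rw [← Finset.sum_div, Finset.sum_sub_distrib, Finset.sum_const, hS, nsmul_eq_mul,
    le_div_iff₀ hd']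
  have h2 := sum_mu N hA S
  rw [hS] at h2
  have h3 : ((d : ℝ)) ^ 2 ≤ 4 * ∑ u ∈ S, (mu N S u : ℝ) := by exact_mod_cast h2
  nlinarith

/-- **The supermartingale bound.** -/
theorem pot {d x : ℕ} (hd : 0 < d) (hN : ∀ b v, (N b v).card = d) {S : Finset V}
    (hS : S.card = d) {β : ℝ} (hβ : 0 ≤ β) :
    ∀ (n j : ℕ) (v : V) (U : Finset V), v ∈ U → U.card + n = d →
      Ex N P n j v U (ind S x) ≤
        Real.exp ((1 - Real.exp (-β)) * ∑ u ∈ (U ∩ S).erase v, pw N S d x u
          - β * ((U \ S).card : ℝ)) *
        Real.exp (-((1 - Real.exp (-β)) * (∑ u ∈ S, pw N S d x u - (x + 1)) - β * x)) := by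
  set α := 1 - Real.exp (-β) with hα
  have hα0 : 0 ≤ α := by
    have : Real.exp (-β) ≤ 1 := Real.exp_le_one_iff.2 (by linarith)
    rw [hα]; linarith
  set p := pw N S d x with hp
  have hp0 : ∀ u, 0 ≤ p u := fun u => pw_nonneg S d x u
  have hp1 : ∀ u, p u ≤ 1 := fun u => pw_le_one hd hS x u
  intro n
  induction n with
  | zero =>
    intro j v U hv hU
    unfold Ex ind
    split_ifs with h
    · rw [← Real.exp_add]
      apply Real.one_le_exp
      have h1 : ∑ u ∈ S, p u - (x + 1) ≤ ∑ u ∈ (U ∩ S).erase v, p u := by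
        have hsub : (U ∩ S).erase v ⊆ S :=
          (Finset.erase_subset _ _).trans Finset.inter_subset_right
        rw [← Finset.sum_sdiff hsub]
        have h2 : ∑ u ∈ S \ (U ∩ S).erase v, p u ≤ ((S \ (U ∩ S).erase v).card : ℝ) := by
          calc _ ≤ ∑ u ∈ S \ (U ∩ S).erase v, (1 : ℝ) := Finset.sum_le_sum fun u _ => hp1 u
            _ = _ := by simp
        have h3 : (S \ (U ∩ S).erase v).card ≤ x + 1 := by
          have hs : S \ (U ∩ S).erase v ⊆ insert v (S \ U) := by
            intro y hy
            simp only [Finset.mem_sdiff, Finset.mem_erase, Finset.mem_inter, not_and,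
              Finset.mem_insert] at hy ⊢
            by_cases hyv : y = v
            · exact Or.inl hyv
            · exact Or.inr ⟨hy.1, fun hyU => hy.2 hyv hyU hy.1⟩
          have h4 := (Finset.card_le_card hs).trans (Finset.card_insert_le _ _)
          have e1 := Finset.card_sdiff_add_card_inter S U
          have e2 := Finset.card_sdiff_add_card_inter U S
          rw [Finset.inter_comm] at e2
          omega
        have h5 : ((S \ (U ∩ S).erase v).card : ℝ) ≤ x + 1 := by exact_mod_cast h3
        linarith
      have h6 : ((U \ S).card : ℝ) ≤ x := by exact_mod_cast h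
      have h7 := mul_le_mul_of_nonneg_left h1 hα0
      have h8 := mul_le_mul_of_nonneg_left h6 hβ
      linarith
    · positivity
  | succ n ih =>
    intro j v U hv hU
    by_cases hx : (U \ S).card ≤ x
    swap
    · rw [ind_zero S x (n + 1) j v U (by omega)]
      positivity
    unfold Ex
    set F := N (P j) v \ U with hF
    set C := Real.exp (-(α * (∑ u ∈ S, p u - (x + 1)) - β * x)) with hC
    have hCpos : 0 < C := Real.exp_pos _
    set A := Real.exp (α * ∑ u ∈ U ∩ S, p u - β * ((U \ S).card : ℝ)) with hA
    have hApos : 0 < A := Real.exp_pos _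
    -- every term
    have hterm : ∀ v' ∈ F, Ex N P n (j + 1) v' (insert v' U) (ind S x) ≤
        (A * C) * (if v' ∈ S then 1 else Real.exp (-β)) := by
      intro v' hv'
      have hv'U : v' ∉ U := (Finset.mem_sdiff.1 hv').2
      refine (ih (j + 1) v' (insert v' U) (Finset.mem_insert_self _ _) ?_).trans ?_
      · rw [Finset.card_insert_of_notMem hv'U]; omega
      · have e1 : ((insert v' U) ∩ S).erase v' = U ∩ S := by
          ext y
          simp only [Finset.mem_erase, Finset.mem_inter, Finset.mem_insert]
          constructor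
          · rintro ⟨h1, h2 | h2, h3⟩
            · exact absurd h2 h1
            · exact ⟨h2, h3⟩
          · rintro ⟨h1, h2⟩
            exact ⟨fun h => hv'U (h ▸ h1), Or.inr h1, h2⟩
        rw [e1]
        split_ifs with hS'
        · have e2 : insert v' U \ S = U \ S := by
            rw [Finset.insert_sdiff_of_mem _ hS']
          rw [e2, mul_one]
        · have e2 : (insert v' U \ S).card = (U \ S).card + 1 := by
            rw [Finset.insert_sdiff_of_notMem _ hS', Finset.card_insert_of_notMem]
            intro hm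
            exact hv'U (Finset.mem_sdiff.1 hm).1
          rw [e2]
          have e3 : Real.exp (α * ∑ u ∈ U ∩ S, p u - β * (((U \ S).card + 1 : ℕ) : ℝ))
              = A * Real.exp (-β) := by
            rw [hA, ← Real.exp_add]
            congr 1
            push_cast
            ring
          rw [e3]
          apply le_of_eq
          ring
    have hsum : ∑ v' ∈ F, Ex N P n (j + 1) v' (insert v' U) (ind S x) ≤
        (A * C) * ((F.card : ℝ) - α * ((F \ S).card : ℝ)) := by
      refine (Finset.sum_le_sum hterm).trans ?_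
      rw [← Finset.mul_sum]
      apply mul_le_mul_of_nonneg_left _ (mul_pos hApos hCpos).le
      rw [Finset.sum_ite, Finset.sum_const, Finset.sum_const, nsmul_eq_mul, nsmul_eq_mul, mul_one]
      have e1 : F.filter (fun v' => ¬ v' ∈ S) = F \ S := by
        rw [Finset.sdiff_eq_filter]
      have e2 : ((F.filter (fun v' => v' ∈ S)).card : ℝ) + ((F \ S).card : ℝ) = F.card := by
        rw [← e1]
        exact_mod_cast Finset.card_filter_add_card_filter_not (s := F) (fun v' => v' ∈ S)
      rw [e1, hα]
      nlinarith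
    have hexit := exit_prob (x := x) hd hN hS hx (P j) v
    rw [← hF, ← hp] at hexit
    -- the factor
    have hfac : (A * C) * ((F.card : ℝ) - α * ((F \ S).card : ℝ)) ≤
        (Real.exp (α * ∑ u ∈ (U ∩ S).erase v, p u - β * ((U \ S).card : ℝ)) * C) *
          (F.card : ℝ) := by
      by_cases hvS : v ∈ S
      · have hmem : v ∈ U ∩ S := Finset.mem_inter.2 ⟨hv, hvS⟩
        have e1 : A = Real.exp (α * ∑ u ∈ (U ∩ S).erase v, p u - β * ((U \ S).card : ℝ))
            * Real.exp (α * p v) := by
          rw [hA, ← Real.exp_add, ← Finset.sum_erase_add _ _ hmem]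
          congr 1
          ring
        set A0 := Real.exp (α * ∑ u ∈ (U ∩ S).erase v, p u - β * ((U \ S).card : ℝ)) with hA0
        have hA0pos : 0 < A0 := Real.exp_pos _
        rw [e1]
        have e2 : Real.exp (α * p v) * (1 - α * p v) ≤ 1 := by
          have := Real.one_sub_le_exp_neg (α * p v)
          calc Real.exp (α * p v) * (1 - α * p v) ≤ Real.exp (α * p v) * Real.exp (-(α * p v)) :=
                mul_le_mul_of_nonneg_left this (Real.exp_pos _).le
            _ = 1 := by rw [← Real.exp_add]; simp
        have e3 : (F.card : ℝ) - α * ((F \ S).card : ℝ) ≤ (1 - α * p v) * F.card := by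
          have := mul_le_mul_of_nonneg_left hexit hα0
          linarith
        calc A0 * Real.exp (α * p v) * C * ((F.card : ℝ) - α * ((F \ S).card : ℝ))
            ≤ A0 * Real.exp (α * p v) * C * ((1 - α * p v) * F.card) :=
              mul_le_mul_of_nonneg_left e3 (by positivity)
          _ = (A0 * C * F.card) * (Real.exp (α * p v) * (1 - α * p v)) := by ring
          _ ≤ (A0 * C * F.card) * 1 := mul_le_mul_of_nonneg_left e2 (by positivity)
          _ = _ := by ring
      · have e1 : (U ∩ S).erase v = U ∩ S := by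
          apply Finset.erase_eq_of_notMem
          intro hm
          exact hvS (Finset.mem_inter.1 hm).2
        rw [e1]
        apply mul_le_mul_of_nonneg_left _ (mul_pos hApos hCpos).le
        have : 0 ≤ α * ((F \ S).card : ℝ) := by positivity
        linarith
    rcases Nat.eq_zero_or_pos F.card with h0 | hpos
    · rw [h0]
      simp only [Nat.cast_zero, div_zero]
      positivity
    · have hpos' : (0 : ℝ) < F.card := by exact_mod_cast hpos
      rw [div_le_iff₀ hpos']
      exact hsum.trans hfac

end pot

end Pool.Agent.Helper20.Rnd
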